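import Pool.Agent.Helper57.TX.Defs
import Pool.Agent.Helper7.UW.R3

/-!
# TX A5: the variance of the difference of the prime sums
-/

set_option autoImplicit false
open MeasureTheory Set Filter Topology
open Pool.Agent.Helper93.UG (zc sp)
open Pool.Agent.Helper57.TX
open Pool.Agent.Helper7.UV (mert_window)
open Pool.Agent.Helper7.UW (sum_inv sum_cos)

namespace Pool.Agent.Helper7.TX

lemma mem_QX {X : ℝ} (p : ℕ) : p ∈ QX X ↔ p.Prime ∧ Real.log p ≤ X := by
  unfold QX
  rw [Finset.mem_filter, Finset.mem_range, Nat.lt_succ_iff, Nat.le_floor_iff (Real.exp_pos X).le]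
  constructor
  · rintro ⟨h1, h2⟩
    have hp0 : (0:ℝ) < p := by exact_mod_cast h2.pos
    exact ⟨h2, (Real.log_le_iff_le_exp hp0).2 h1⟩
  · rintro ⟨h1, h2⟩
    have hp0 : (0:ℝ) < p := by exact_mod_cast h1.pos
    exact ⟨(Real.log_le_iff_le_exp hp0).1 h2, h1⟩

lemma ph_bd {u : ℝ} (hu : 0 ≤ u) : 0 ≤ ph u ∧ ph u ≤ 1 := by
  unfold ph
  rcases le_or_gt u (1 / 2) with h | h
  · rw [max_eq_right (by linarith : (0:ℝ) ≤ 1 - u), max_eq_right (by linarith : (0:ℝ) ≤ 1 - 2 * u)]
    constructor <;> nlinarith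
  · rw [max_eq_left (by linarith : 1 - 2 * u ≤ (0:ℝ))]
    rcases le_or_gt u 1 with h1 | h1
    · rw [max_eq_right (by linarith : (0:ℝ) ≤ 1 - u)]
      constructor <;> nlinarith
    · rw [max_eq_left (by linarith : 1 - u ≤ (0:ℝ))]
      constructor <;> norm_num

/-- A5: the variance; for the primes `log p ≤ log T/c` by `sin² ≤ x²`, beyond by `sum_inv`, `sum_cos` -/
theorem var_ra : ∃ C T₀ : ℝ, 0 < C ∧ ∀ T c X : ℝ, T₀ ≤ T → 1 ≤ c → c * Real.log (Real.log T) ≤ Real.log T → 1 / 2 ≤ X →
    X ≤ Real.log T → ∑ p ∈ QX X, ra X (c * sp T) p ^ 2 / p ≤ 2 / Real.pi ^ 2 * (Real.log c + C) := by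
  obtain ⟨E, hE, hm⟩ := mert_window
  obtain ⟨E1, hE1, h1s⟩ := sum_inv
  obtain ⟨E2, hE2, h2s⟩ := sum_cos
  have hpi := Real.pi_pos
  refine ⟨2 * Real.pi ^ 2 * (1 + E) + E1 + 1 + 2 * E2, Real.exp (Real.exp 1), by positivity, ?_⟩
  intro T c X hT hc hcT hX hXT
  have he1 : 1 < Real.exp (Real.exp 1) := Real.one_lt_exp_iff.2 (Real.exp_pos 1)
  have hT1 : 1 < T := lt_of_lt_of_le he1 hT
  have hlog : 0 < Real.log T := Real.log_pos hT1
  have hll : 1 ≤ Real.log (Real.log T) := by
    rw [Real.le_log_iff_exp_le hlog, Real.le_log_iff_exp_le (by linarith)]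
    exact hT
  have hc0 : 0 < c := by linarith
  set L : ℝ := Real.log T / c with hL
  have hL1 : Real.log (Real.log T) ≤ L := by
    rw [hL, le_div_iff₀ hc0, mul_comm]
    exact hcT
  have hL0 : 0 < L := by linarith
  have hcL : c * L = Real.log T := by
    rw [hL]
    field_simp
  -- one term
  have hterm : ∀ p ∈ QX X, ra X (c * sp T) p ^ 2 / p ≤
      4 / Real.pi ^ 2 * (Real.sin (Real.pi * (Real.log p / L)) ^ 2 / p) := by
    intro p hp
    rw [mem_QX] at hp
    have hp0 : (0:ℝ) < p := by exact_mod_cast hp.1.pos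
    have hlp : 0 ≤ Real.log p := Real.log_nonneg (by exact_mod_cast hp.1.one_le)
    have h1 := ph_bd (u := Real.log p / X) (by positivity)
    have h2 : c * sp T * Real.log p / 2 = Real.pi * (Real.log p / L) := by
      unfold sp
      rw [hL]
      field_simp
    unfold ra
    rw [h2]
    have h3 : ph (Real.log p / X) ^ 2 ≤ 1 := by nlinarith [h1.1, h1.2]
    have h4 : (2 / Real.pi * ph (Real.log p / X) * Real.sin (Real.pi * (Real.log p / L))) ^ 2 / p =
        ph (Real.log p / X) ^ 2 * (4 / Real.pi ^ 2 * (Real.sin (Real.pi * (Real.log p / L)) ^ 2 / p)) := by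
      field_simp
      ring
    rw [h4]
    have h5 : 0 ≤ 4 / Real.pi ^ 2 * (Real.sin (Real.pi * (Real.log p / L)) ^ 2 / p) := by positivity
    nlinarith
  -- the split
  have hsplit : ∑ p ∈ QX X, ra X (c * sp T) p ^ 2 / p =
      ∑ p ∈ (QX X).filter (fun p : ℕ => Real.log p ≤ L), ra X (c * sp T) p ^ 2 / p +
      ∑ p ∈ (QX X).filter (fun p : ℕ => ¬ Real.log p ≤ L), ra X (c * sp T) p ^ 2 / p :=
    (Finset.sum_filter_add_sum_filter_not _ _ _).symm
  -- small primes
  have hA : ∑ p ∈ (QX X).filter (fun p : ℕ => Real.log p ≤ L), ra X (c * sp T) p ^ 2 / p ≤ 4 * (1 + E) := by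
    have hmn : 0 ≤ min X L := le_min (by linarith) hL0.le
    have h1 := hm 0 (min X L) le_rfl hmn ((QX X).filter (fun p : ℕ => Real.log p ≤ L)) (by
      intro p
      rw [Finset.mem_filter, mem_QX, le_min_iff]
      constructor
      · rintro ⟨⟨h1, h2⟩, h3⟩
        exact ⟨h1, Real.log_pos (by exact_mod_cast h1.one_lt), h2, h3⟩
      · rintro ⟨h1, _, h2, h3⟩
        exact ⟨⟨h1, h2⟩, h3⟩)
    have h2 : ∑ p ∈ (QX X).filter (fun p : ℕ => Real.log p ≤ L), Real.log p / p ≤ L + E := by
      have h3 := (abs_le.1 h1).2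
      have h4 : min X L ≤ L := min_le_right _ _
      linarith
    have h3 : ∑ p ∈ (QX X).filter (fun p : ℕ => Real.log p ≤ L), ra X (c * sp T) p ^ 2 / p ≤
        ∑ p ∈ (QX X).filter (fun p : ℕ => Real.log p ≤ L), 4 / L * (Real.log p / p) := by
      apply Finset.sum_le_sum
      intro p hp
      rw [Finset.mem_filter] at hp
      refine (hterm p hp.1).trans ?_
      have hp1 := hp.1
      rw [mem_QX] at hp1
      have hp0 : (0:ℝ) < p := by exact_mod_cast hp1.1.pos
      have hlp : 0 ≤ Real.log p := Real.log_nonneg (by exact_mod_cast hp1.1.one_le)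
      have h4 : Real.sin (Real.pi * (Real.log p / L)) ^ 2 ≤ (Real.pi * (Real.log p / L)) ^ 2 := by
        rw [← sq_abs (Real.sin _), ← sq_abs (Real.pi * _)]
        exact pow_le_pow_left₀ (abs_nonneg _) (Real.abs_sin_le_abs) 2
      have h5 : (Real.pi * (Real.log p / L)) ^ 2 ≤ Real.pi ^ 2 * (Real.log p / L) := by
        have h6 : Real.log p / L ≤ 1 := by
          rw [div_le_one hL0]
          exact hp.2
        have h7 : 0 ≤ Real.log p / L := by positivity
        have h8 : (Real.log p / L) ^ 2 ≤ Real.log p / L := by nlinarith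
        calc _ = Real.pi ^ 2 * (Real.log p / L) ^ 2 := by ring
          _ ≤ _ := by gcongr
      calc _ ≤ 4 / Real.pi ^ 2 * (Real.pi ^ 2 * (Real.log p / L) / p) := by
            gcongr
            exact h4.trans h5
        _ = _ := by
            field_simp
    refine h3.trans ?_
    rw [← Finset.mul_sum]
    have h9 : 4 / L * ∑ p ∈ (QX X).filter (fun p : ℕ => Real.log p ≤ L), Real.log p / p ≤ 4 / L * (L + E) := by gcongr
    refine h9.trans ?_
    have h10 : 4 / L * (L + E) = 4 * (1 + E / L) := by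
      field_simp
    rw [h10]
    have h11 : E / L ≤ E := div_le_self hE.le (by linarith)
    linarith
  -- large primes
  have hB : ∑ p ∈ (QX X).filter (fun p : ℕ => ¬ Real.log p ≤ L), ra X (c * sp T) p ^ 2 / p ≤
      2 / Real.pi ^ 2 * (Real.log c + (E1 + 1 + 2 * E2)) := by
    have hlc : 0 ≤ Real.log c := Real.log_nonneg hc
    rcases le_or_gt X L with hXL | hXL
    · have h1 : (QX X).filter (fun p : ℕ => ¬ Real.log p ≤ L) = ∅ := by
        rw [Finset.filter_eq_empty_iff]
        intro p hp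
        rw [mem_QX] at hp
        rw [not_not]
        exact hp.2.trans hXL
      rw [h1, Finset.sum_empty]
      positivity
    · have hN : 1 ≤ X / L := by
        rw [le_div_iff₀ hL0]
        linarith
      have hNL : X / L * L = X := by field_simp
      have hmem : ∀ p : ℕ, p ∈ (QX X).filter (fun p : ℕ => ¬ Real.log p ≤ L) ↔
          p.Prime ∧ L < Real.log p ∧ Real.log p ≤ X / L * L := by
        intro p
        rw [Finset.mem_filter, mem_QX, hNL, not_le]
        tauto
      have h1 := h1s (X / L) L hN hL0 _ hmem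
      have h2 := h2s (X / L) L hN hL0 _ hmem
      have h3 : ∑ p ∈ (QX X).filter (fun p : ℕ => ¬ Real.log p ≤ L), ra X (c * sp T) p ^ 2 / p ≤
          2 / Real.pi ^ 2 * (∑ p ∈ (QX X).filter (fun p : ℕ => ¬ Real.log p ≤ L), (1 / p : ℝ) -
            ∑ p ∈ (QX X).filter (fun p : ℕ => ¬ Real.log p ≤ L), Real.cos (2 * Real.pi * (Real.log p / L)) / p) := by
        rw [← Finset.sum_sub_distrib, Finset.mul_sum]
        apply Finset.sum_le_sum
        intro p hp
        rw [Finset.mem_filter] at hp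
        refine (hterm p hp.1).trans (le_of_eq ?_)
        have hp1 := hp.1
        rw [mem_QX] at hp1
        have hp0 : (0:ℝ) < p := by exact_mod_cast hp1.1.pos
        have h4 : Real.cos (2 * Real.pi * (Real.log p / L)) = 1 - 2 * Real.sin (Real.pi * (Real.log p / L)) ^ 2 := by
          rw [mul_assoc, Real.cos_two_mul, Real.cos_sq']
          ring
        rw [h4]
        field_simp
        ring
      refine h3.trans ?_
      apply mul_le_mul_of_nonneg_left _ (by positivity)
      have hlN : Real.log (X / L) ≤ Real.log c := by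
        apply Real.log_le_log (by positivity)
        rw [div_le_iff₀ hL0, hcL]
        exact hXT
      have hlc2 : Real.log c ≤ Real.log (Real.log T) := by
        apply Real.log_le_log hc0
        nlinarith
      have h5 : E1 / L ≤ E1 := div_le_self hE1.le (by linarith)
      have h6 : E2 / L * (1 + Real.log (X / L)) ≤ 2 * E2 := by
        rw [div_mul_eq_mul_div, div_le_iff₀ hL0]
        have h7 : 1 + Real.log (X / L) ≤ 2 * L := by linarith
        nlinarith
      have h7 := (abs_le.1 h1).2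
      have h8 := (abs_le.1 h2).1
      linarith
  rw [hsplit]
  have h9 : 4 * (1 + E) = 2 / Real.pi ^ 2 * (2 * Real.pi ^ 2 * (1 + E)) := by
    field_simp
    ring
  calc _ ≤ 4 * (1 + E) + 2 / Real.pi ^ 2 * (Real.log c + (E1 + 1 + 2 * E2)) := add_le_add hA hB
    _ = _ := by
      rw [h9]
      ring

end Pool.Agent.Helper7.TX
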